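import Pool.Agent.BEO.Stmts

/-!
# DEO of the squad BEO (problem MP_be01ff_an)

Density of the polynomials (port of Helper98_BEB/DEN.lean).
-/

set_option autoImplicit false

namespace Pool.Agent.BEO.H69

open Set Filter Topology MeasureTheory
open scoped InnerProductSpace ENNReal
open Pool.Agent.BE01 Pool.Agent.BEO

noncomputable section

/-- The closed ball. -/
def KB (d : ℕ) (R : ℝ) : Set (En d) := Metric.closedBall (0 : En d) R

theorem cont_coord {d : ℕ} (i : Fin d) : Continuous fun x : En d => x i := by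
  fun_prop

theorem KB_compact (d : ℕ) (R : ℝ) : IsCompact (KB d R) := isCompact_closedBall _ _

/-- The generators of the algebra. -/
def gen (d : ℕ) (R : ℝ) (i : Fin d) : C(KB d R, ℝ) :=
  ⟨fun x => (x : En d) i, (cont_coord i).comp continuous_subtype_val⟩

theorem ev_eq {d : ℕ} {R : ℝ} (P : Pl d) (x : KB d R) :
    (MvPolynomial.aeval (gen d R) P : C(KB d R, ℝ)) x = ev P (x : En d) := by
  induction P using MvPolynomial.induction_on with
  | C c =>
    rw [MvPolynomial.aeval_C]
    unfold ev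
    rw [MvPolynomial.eval_C]
    exact (algebraMap_apply c x).trans (by rw [smul_eq_mul, mul_one])
  | add P1 P2 h1 h2 =>
    rw [map_add, ContinuousMap.add_apply, h1, h2]
    unfold ev
    rw [map_add]
  | mul_X P i h =>
    rw [map_mul, ContinuousMap.mul_apply, h, MvPolynomial.aeval_X]
    unfold ev
    rw [map_mul, MvPolynomial.eval_X]
    rfl

theorem sep (d : ℕ) (R : ℝ) :
    (MvPolynomial.aeval (gen d R) : Pl d →ₐ[ℝ] C(KB d R, ℝ)).range.SeparatesPoints := by
  intro x y hxy
  have h : ∃ i, (x : En d) i ≠ (y : En d) i := by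
    by_contra h
    push Not at h
    exact hxy (Subtype.ext (by ext i; exact h i))
  obtain ⟨i, hi⟩ := h
  exact ⟨gen d R i, ⟨gen d R i, ⟨MvPolynomial.X i, MvPolynomial.aeval_X _ _⟩, rfl⟩, hi⟩

theorem approx {d : ℕ} {R : ℝ} (g : En d → ℝ) (hg : Continuous g) (ε : ℝ) (hε : 0 < ε) :
    ∃ Q : Pl d, ∀ x ∈ KB d R, |ev Q x - g x| < ε := by
  have : CompactSpace (KB d R) := isCompact_iff_compactSpace.1 (KB_compact d R)
  obtain ⟨⟨f, P, hP⟩, hf⟩ :=
    ContinuousMap.exists_mem_subalgebra_near_continuous_of_separatesPoints _ (sep d R)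
      (fun x : KB d R => g x) (hg.comp continuous_subtype_val) ε hε
  refine ⟨P, fun x hx => ?_⟩
  have h1 := hf ⟨x, hx⟩
  have h2 := ev_eq P (⟨x, hx⟩ : KB d R)
  rw [Real.norm_eq_abs] at h1
  have h3 : f ⟨x, hx⟩ = ev P x := by
    rw [← h2]
    exact congrArg (fun F : C(KB d R, ℝ) => F ⟨x, hx⟩) hP.symm
  rw [← h3]
  exact h1

theorem BB_meas (d : ℕ) (R : ℝ) : MeasurableSet (BB d R) := Metric.isOpen_ball.measurableSet

theorem BB_sub (d : ℕ) (R : ℝ) : BB d R ⊆ KB d R := Metric.ball_subset_closedBall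

theorem mu_fin (d : ℕ) (R : ℝ) : IsFiniteMeasure (mu (BB d R)) := by
  refine ⟨?_⟩
  rw [mu, Measure.restrict_apply_univ]
  exact lt_of_le_of_lt (measure_mono (BB_sub d R)) (KB_compact d R).measure_lt_top

theorem ev_cont {d : ℕ} (P : Pl d) : Continuous (ev P) := by
  unfold ev
  exact (MvPolynomial.continuous_eval P).comp (by fun_prop)

/-- DEO. -/
theorem deo : DeoStmt := by
  intro d R u hR hu
  have := mu_fin d R
  have hmem : ∀ᵐ x ∂(mu (BB d R)), x ∈ BB d R := by
    rw [mu]
    exact ae_restrict_mem (BB_meas d R)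
  have hui : Integrable (fun x => u x) (mu (BB d R)) := (Lp.memLp u).integrable one_le_two
  have key : ∀ g : En d → ℝ, Continuous g → HasCompactSupport g →
      ∫ x, g x * u x ∂(mu (BB d R)) = 0 := by
    intro g hg hgc
    obtain ⟨M, hM⟩ := hg.bounded_above_of_compact_support hgc
    have hgi : Integrable (fun x => g x * u x) (mu (BB d R)) :=
      hui.bdd_mul hg.aestronglyMeasurable (Eventually.of_forall hM)
    by_contra hne
    obtain ⟨I, hI⟩ : ∃ I, I = ∫ x, ‖u x‖ ∂(mu (BB d R)) := ⟨_, rfl⟩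
    have hI0 : 0 ≤ I := by
      rw [hI]
      exact integral_nonneg fun x => norm_nonneg _
    obtain ⟨J, hJ⟩ : ∃ J, J = ∫ x, g x * u x ∂(mu (BB d R)) := ⟨_, rfl⟩
    rw [← hJ] at hne
    have hJ0 : 0 < |J| := abs_pos.2 hne
    obtain ⟨δ, hδ⟩ : ∃ δ, δ = |J| / (2 * (I + 1)) := ⟨_, rfl⟩
    have hδ0 : 0 < δ := by
      rw [hδ]
      positivity
    obtain ⟨Q, hQg⟩ := approx (R := R) g hg δ hδ0
    have h0 : ∫ x, ev Q x * u x ∂(mu (BB d R)) = 0 := by
      rw [← hu Q]
      refine integral_congr_ae (Eventually.of_forall fun x => ?_)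
      exact mul_comm _ _
    have hQi : Integrable (fun x => ev Q x * u x) (mu (BB d R)) := by
      obtain ⟨B, hB⟩ := (KB_compact d R).exists_bound_of_continuousOn (ev_cont Q).continuousOn
      refine hui.bdd_mul (c := B) (ev_cont Q).aestronglyMeasurable ?_
      filter_upwards [hmem] with x hx
      exact hB x (BB_sub d R hx)
    have h1 : -J = ∫ x, (ev Q x - g x) * u x ∂(mu (BB d R)) := by
      have h2 : (fun x => (ev Q x - g x) * u x) = fun x => ev Q x * u x - g x * u x := by
        funext x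
        ring
      rw [h2, integral_sub hQi hgi, h0, zero_sub, ← hJ]
    have h3 : |J| ≤ δ * I := by
      rw [← abs_neg J, h1, hI, ← integral_const_mul]
      refine (norm_integral_le_integral_norm (fun x => (ev Q x - g x) * u x)).trans ?_
      refine integral_mono_ae ?_ (hui.norm.const_mul _) ?_
      · have := (hQi.sub hgi).norm
        refine this.congr (Eventually.of_forall fun x => ?_)
        change ‖ev Q x * u x - g x * u x‖ = ‖(ev Q x - g x) * u x‖
        rw [sub_mul]
      · filter_upwards [hmem] with x hx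
        rw [norm_mul]
        refine mul_le_mul_of_nonneg_right ?_ (norm_nonneg _)
        exact (hQg x (BB_sub d R hx)).le
    have h4 : δ * I ≤ |J| / 2 := by
      rw [hδ, div_mul_eq_mul_div, div_le_div_iff₀ (by positivity) (by norm_num)]
      nlinarith
    linarith
  have hae : ∀ᵐ x ∂(mu (BB d R)), u x = 0 :=
    ae_eq_zero_of_integral_contDiff_smul_eq_zero hui.locallyIntegrable
      fun g hg hgc => key g hg.continuous hgc
  exact (Lp.eq_zero_iff_ae_eq_zero).2 hae

end

end Pool.Agent.BEO.H69
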